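import Pool.Agent.H83.AR.Targets2
import Pool.Agent.H54.LS.GA

/-! # FD: the kernel is rapidly decreasing -/

set_option autoImplicit false

namespace Pool.Agent.H17.BR

open MeasureTheory Set FourierTransform
open Pool.Agent.H83.LS Pool.Agent.H93.AR Pool.Agent.H54.LS Pool.Agent.H14.LS Pool.Agent.H83.AR
open scoped ENNReal NNReal SchwartzMap

theorem fd_e_add (a b : ℝ) : e (a + b) = e a * e b := by
  unfold e
  rw [← Complex.exp_add]
  congr 1
  push_cast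
  ring

theorem fd_e_cont : Continuous e := by
  unfold e
  fun_prop

theorem fd_nu_integral (n : ℕ) (g : ℝ → ℂ) :
    ∫ ρ : Ioi (0 : ℝ), g ρ ∂(nu n) = ∫ ρ in Ioi (0 : ℝ), ((ρ ^ (n - 1) : ℝ) : ℂ) * g ρ := by
  have h0 : ∫ ρ : Ioi (0 : ℝ), g ρ ∂(nu n) =
      ∫ ρ : Ioi (0 : ℝ), ((((ρ : ℝ) ^ (n - 1)).toNNReal : ℝ≥0) : ℝ) • g ρ
        ∂(Measure.comap Subtype.val volume) := by
    unfold nu Measure.volumeIoiPow
    rw [integral_withDensity_eq_integral_toReal_smul]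
    · refine integral_congr_ae (Filter.Eventually.of_forall fun ρ => ?_)
      rfl
    · fun_prop
    · exact Filter.Eventually.of_forall fun ρ => ENNReal.ofReal_lt_top
  rw [h0, integral_subtype_comap measurableSet_Ioi
    (fun ρ : ℝ => (((ρ ^ (n - 1)).toNNReal : ℝ≥0) : ℝ) • g ρ)]
  refine setIntegral_congr_fun measurableSet_Ioi fun ρ hρ => ?_
  have hρ' : (0 : ℝ) < ρ := hρ
  rw [Real.coe_toNNReal _ (pow_nonneg hρ'.le _), Complex.real_smul]

/-- polar coordinates -/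
theorem fd_polar {n : ℕ} (hn : 1 ≤ n) (F : EE n → ℂ) (hF : Integrable F) :
    ∫ ξ, F ξ = ∫ s in Ioi (0 : ℝ), ((s ^ (n - 1) : ℝ) : ℂ) *
      ∫ w : Sp n, F (s • (w : EE n)) ∂(sg n) := by
  have hmp := mp_polar n hn
  have h1 : ∫ ξ, F ξ = ∫ q : Sp n × Ioi (0 : ℝ), F ((q.2 : ℝ) • (q.1 : EE n))
      ∂((sg n).prod (nu n)) := by
    have h2 : AEStronglyMeasurable F (Measure.map (fun q : Sp n × Ioi (0 : ℝ) =>
        (q.2 : ℝ) • (q.1 : EE n)) ((sg n).prod (nu n))) := by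
      rw [hmp.map_eq]
      exact hF.aestronglyMeasurable
    rw [← integral_map hmp.measurable.aemeasurable h2, hmp.map_eq]
  have h3 : Integrable (fun q : Sp n × Ioi (0 : ℝ) => F ((q.2 : ℝ) • (q.1 : EE n)))
      ((sg n).prod (nu n)) := hmp.integrable_comp_of_integrable hF
  rw [h1, integral_prod_symm _ h3]
  exact fd_nu_integral n (fun s => ∫ w : Sp n, F (s • (w : EE n)) ∂(sg n))

/-- the amplitude -/
noncomputable def fg (d : ℕ) (s : ℝ) : ℂ := ((chi s * s ^ (d - 1) : ℝ) : ℂ)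

theorem fg_smooth (d : ℕ) : ContDiff ℝ (⊤ : ℕ∞) (fg d) := by
  unfold fg
  exact Complex.ofRealCLM.contDiff.comp (chi_smooth.mul (contDiff_id.pow _))

theorem fg_supp {d : ℕ} {s : ℝ} (h : fg d s ≠ 0) : 1 / 2 ≤ s ∧ s ≤ 2 := by
  apply chi_supp
  intro h0
  apply h
  unfold fg
  rw [h0, zero_mul, Complex.ofReal_zero]

theorem fg_compact (d : ℕ) : HasCompactSupport (fg d) := by
  refine HasCompactSupport.intro (isCompact_Icc (a := (1 / 2 : ℝ)) (b := 2)) fun s hs => ?_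
  by_contra h
  exact hs (fg_supp h)

theorem fg_SA (d M : ℕ) : ∃ B : ℝ, SA d M 1 B (fun q : ℝ × EE d => fg d q.1) := by
  have hb : ∀ k : ℕ, ∃ b : ℝ, ∀ s, ‖iteratedFDeriv ℝ k (fg d) s‖ ≤ b := by
    intro k
    refine Continuous.bounded_above_of_compact_support
      ((fg_smooth d).continuous_iteratedFDeriv (by exact_mod_cast le_top)) ?_
    exact (fg_compact d).iteratedFDeriv k
  choose b hb using hb
  refine ⟨∑ k ∈ Finset.range (M + 1), |b k|, ?_, ?_, ?_⟩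
  · exact (fg_smooth d).comp contDiff_fst
  · intro q hq
    obtain ⟨h1, h2⟩ := fg_supp hq
    constructor <;> linarith
  · intro ζ _ k hk q _
    have h1 : (fun q : ℝ × EE d => (fun q : ℝ × EE d => fg d q.1) (q.1, ζ + (1 : ℝ) • q.2)) =
        fg d ∘ (ContinuousLinearMap.fst ℝ ℝ (EE d)) := rfl
    rw [h1, ContinuousLinearMap.iteratedFDeriv_comp_right _ (fg_smooth d) _
      (by exact_mod_cast le_top)]
    refine (ContinuousMultilinearMap.norm_compContinuousLinearMap_le _ _).trans ?_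
    have h2 : ∏ _i : Fin k, ‖ContinuousLinearMap.fst ℝ ℝ (EE d)‖ ≤ 1 := by
      refine Finset.prod_le_one (fun _ _ => norm_nonneg _) fun _ _ => ?_
      exact ContinuousLinearMap.norm_fst_le ℝ ℝ (EE d)
    have h3 := hb k (ContinuousLinearMap.fst ℝ ℝ (EE d) q)
    have h4 : |b k| ≤ ∑ k ∈ Finset.range (M + 1), |b k| :=
      Finset.single_le_sum (f := fun k => |b k|) (fun _ _ => abs_nonneg _)
        (Finset.mem_range.2 (by omega))
    have h5 : 0 ≤ ‖iteratedFDeriv ℝ k (fg d) (ContinuousLinearMap.fst ℝ ℝ (EE d) q)‖ :=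
      norm_nonneg _
    calc _ ≤ ‖iteratedFDeriv ℝ k (fg d) (ContinuousLinearMap.fst ℝ ℝ (EE d) q)‖ * 1 :=
          mul_le_mul_of_nonneg_left h2 h5
      _ ≤ |b k| := by
          rw [mul_one]
          exact h3.trans (le_abs_self _)
      _ ≤ _ := h4

/-- the kernel as an oscillatory integral -/
theorem fd_eq {d : ℕ} (hd : 1 ≤ d) {lam t : ℝ} (hl : 0 < lam) {x : EE d} (hx : 0 < ‖x‖) :
    MK (mT lam t) x = ((lam ^ d : ℝ) : ℂ) *
      osc d (fun q : ℝ × EE d => fg d q.1) (lam * t) (lam * ‖x‖) (-(‖x‖⁻¹ • x)) := by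
  have hchi : Continuous chi := chi_smooth.continuous
  obtain ⟨F, hFdef⟩ : ∃ F : EE d → ℂ, F = fun ξ => e (inner ℝ x ξ) * mT lam t ξ := ⟨_, rfl⟩
  have hFc : Continuous F := by
    rw [hFdef]
    unfold mT
    have h1 : Continuous fun ξ : EE d => e (inner ℝ x ξ) :=
      fd_e_cont.comp (by fun_prop)
    have h2 : Continuous fun ξ : EE d => e (t * ‖ξ‖) := fd_e_cont.comp (by fun_prop)
    have h3 : Continuous fun ξ : EE d => ((chi (‖ξ‖ / lam) : ℝ) : ℂ) :=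
      Complex.continuous_ofReal.comp (hchi.comp (by fun_prop))
    exact h1.mul (h2.mul h3)
  have hFs : HasCompactSupport F := by
    refine HasCompactSupport.intro (isCompact_closedBall (0 : EE d) (2 * lam)) fun ξ hξ => ?_
    rw [mem_closedBall_zero_iff, not_le] at hξ
    have h0 : chi (‖ξ‖ / lam) = 0 := by
      by_contra h
      have h1 := (chi_supp h).2
      rw [div_le_iff₀ hl] at h1
      linarith
    rw [hFdef]
    simp only [mT, h0, Complex.ofReal_zero, mul_zero]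
  have hFi : Integrable F := hFc.integrable_of_hasCompactSupport hFs
  have h1 : MK (mT lam t) x = ∫ ξ, F ξ := by rw [hFdef]; rfl
  rw [h1, fd_polar hd F hFi]
  have h2 := integral_comp_mul_left_Ioi (fun s : ℝ => ((s ^ (d - 1) : ℝ) : ℂ) *
    ∫ w : Sp d, F (s • (w : EE d)) ∂(sg d)) 0 hl
  rw [mul_zero] at h2
  have h3 : ∫ s in Ioi (0 : ℝ), ((s ^ (d - 1) : ℝ) : ℂ) *
      ∫ w : Sp d, F (s • (w : EE d)) ∂(sg d) =
      lam • ∫ s in Ioi (0 : ℝ), (((lam * s) ^ (d - 1) : ℝ) : ℂ) *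
        ∫ w : Sp d, F ((lam * s) • (w : EE d)) ∂(sg d) := by
    rw [h2, smul_smul, mul_inv_cancel₀ hl.ne', one_smul]
  rw [h3]
  unfold osc
  have h4 : ∀ s : ℝ, s ∉ Ioi (0 : ℝ) → ∫ w : Sp d, e (s * (lam * t - lam * ‖x‖ *
      inner ℝ (-(‖x‖⁻¹ • x)) (w : EE d))) * fg d s ∂(sg d) = 0 := by
    intro s hs
    have : fg d s = 0 := by
      by_contra h
      have := (fg_supp h).1
      rw [mem_Ioi, not_lt] at hs
      linarith
    rw [this]
    simp
  rw [← setIntegral_eq_integral_of_forall_compl_eq_zero (s := Ioi (0 : ℝ)) h4]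
  rw [Complex.real_smul, ← integral_const_mul, ← integral_const_mul]
  refine setIntegral_congr_fun measurableSet_Ioi fun s hs => ?_
  have hs0 : (0 : ℝ) < s := hs
  rw [← integral_const_mul, ← integral_const_mul, ← integral_const_mul]
  refine integral_congr_ae (Filter.Eventually.of_forall fun w => ?_)
  have hw : ‖(w : EE d)‖ = 1 := mem_sphere_zero_iff_norm.1 w.2
  simp only [hFdef, mT, fg]
  have e1 : ‖(lam * s) • (w : EE d)‖ = lam * s := by
    rw [norm_smul, hw, mul_one, Real.norm_of_nonneg (by positivity)]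
  have e2 : lam * s / lam = s := by field_simp
  have e3 : inner ℝ x ((lam * s) • (w : EE d)) = lam * s * inner ℝ x (w : EE d) := by
    rw [inner_smul_right]
  have e4 : s * (lam * t - lam * ‖x‖ * inner ℝ (-(‖x‖⁻¹ • x)) (w : EE d)) =
      lam * s * inner ℝ x (w : EE d) + t * (lam * s) := by
    rw [inner_neg_left, inner_smul_left]
    simp only [RCLike.conj_to_real]
    field_simp
    ring
  rw [e1, e2, e3, e4, fd_e_add]
  have e5 : ((lam ^ d : ℝ) : ℂ) = (lam : ℂ) * ((lam ^ (d - 1) : ℝ) : ℂ) := by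
    rw [← Complex.ofReal_mul, ← pow_succ', Nat.sub_add_cancel hd]
  rw [e5]
  push_cast
  ring

theorem pf_fd (hKS : T_KS) : T_FD := by
  intro d N hd
  obtain ⟨M, C₀, hK⟩ := hKS d (N + d + 1) hd
  obtain ⟨B, hB⟩ := fg_SA d M
  have hB0 : 0 ≤ B := by
    have : Nonempty (Fin d) := ⟨⟨0, by omega⟩⟩
    have hnt : Nontrivial (EE d) := inferInstance
    obtain ⟨ζ, hζ⟩ := exists_norm_eq (EE d) (zero_le_one : (0 : ℝ) ≤ 1)
    have h := hB.2.2 ζ hζ 0 (Nat.zero_le _) (0, 0) (by simp)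
    exact (norm_nonneg _).trans h
  set K : ℝ := |C₀| * B * 2 * 4 ^ (N + d + 1) with hKdef
  have hK0 : 0 ≤ K := by positivity
  have key : ∀ lam t : ℝ, 1 ≤ lam → t ∈ Icc (1 : ℝ) 2 → ∀ x : EE d, 4 ≤ ‖x‖ →
      ‖MK (mT lam t) x‖ ≤ K * (lam ^ N)⁻¹ * (1 + ‖x‖) ^ (-((d : ℝ) + 1)) := by
    intro lam t hl ht x hx
    have hl0 : 0 < lam := by linarith
    have hx0 : 0 < ‖x‖ := by linarith
    rw [fd_eq (by omega) hl0 hx0, norm_mul, Complex.norm_real,
      Real.norm_of_nonneg (by positivity)]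
    have hR : 4 ≤ lam * ‖x‖ := by nlinarith
    have hsR : 1 ≤ Real.sqrt (lam * ‖x‖) := by
      rw [Real.one_le_sqrt]
      linarith
    have hu : ‖-(‖x‖⁻¹ • x)‖ = 1 := by
      rw [norm_neg, norm_smul, norm_inv, norm_norm, inv_mul_cancel₀ hx0.ne']
    have h1 := hK (fun q : ℝ × EE d => fg d q.1) 1 B (lam * t) (lam * ‖x‖) 0 0 (-(‖x‖⁻¹ • x)) hB
      (by linarith) (by rw [div_le_one (by linarith)]; exact hsR) hu le_rfl le_rfl
      (fun s w _ _ => ⟨norm_nonneg _, norm_nonneg _⟩)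
    simp only [mul_zero, add_zero, one_pow, inv_one, mul_one] at h1
    have hA1 : lam * (1 + ‖x‖) / 4 ≤ 1 + |lam * t - lam * ‖x‖| := by
      have h2 : lam * ‖x‖ - lam * t ≤ |lam * t - lam * ‖x‖| := by
        rw [abs_sub_comm]
        exact le_abs_self _
      have h3 : lam * t ≤ lam * 2 := mul_le_mul_of_nonneg_left ht.2 hl0.le
      nlinarith
    have hA2 : lam * (1 + ‖x‖) / 4 ≤ 1 + |lam * t + lam * ‖x‖| := by
      have h2 : lam * t + lam * ‖x‖ ≤ |lam * t + lam * ‖x‖| := le_abs_self _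
      have h3 : 0 ≤ lam * t := mul_nonneg hl0.le (by linarith [ht.1])
      nlinarith
    have hpos : 0 < lam * (1 + ‖x‖) / 4 := by positivity
    have h5 : ((1 + |lam * t - lam * ‖x‖|) ^ (N + d + 1))⁻¹ ≤
        ((lam * (1 + ‖x‖) / 4) ^ (N + d + 1))⁻¹ :=
      inv_anti₀ (by positivity) (pow_le_pow_left₀ hpos.le hA1 _)
    have h6 : ((1 + |lam * t + lam * ‖x‖|) ^ (N + d + 1))⁻¹ ≤
        ((lam * (1 + ‖x‖) / 4) ^ (N + d + 1))⁻¹ :=
      inv_anti₀ (by positivity) (pow_le_pow_left₀ hpos.le hA2 _)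
    have h7 : (Real.sqrt (lam * ‖x‖) ^ (d - 1))⁻¹ ≤ 1 :=
      inv_le_one_of_one_le₀ (one_le_pow₀ hsR)
    have h8 : ‖osc d (fun q : ℝ × EE d => fg d q.1) (lam * t) (lam * ‖x‖) (-(‖x‖⁻¹ • x))‖ ≤
        |C₀| * B * 1 * (((lam * (1 + ‖x‖) / 4) ^ (N + d + 1))⁻¹ +
          ((lam * (1 + ‖x‖) / 4) ^ (N + d + 1))⁻¹) := by
      refine h1.trans ?_
      have h9 : 0 ≤ ((1 + |lam * t - lam * ‖x‖|) ^ (N + d + 1))⁻¹ +
          ((1 + |lam * t + lam * ‖x‖|) ^ (N + d + 1))⁻¹ := by positivity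
      have h10 : 0 ≤ (Real.sqrt (lam * ‖x‖) ^ (d - 1))⁻¹ := by positivity
      calc C₀ * B * (Real.sqrt (lam * ‖x‖) ^ (d - 1))⁻¹ *
            (((1 + |lam * t - lam * ‖x‖|) ^ (N + d + 1))⁻¹ +
              ((1 + |lam * t + lam * ‖x‖|) ^ (N + d + 1))⁻¹) ≤
            |C₀| * B * (Real.sqrt (lam * ‖x‖) ^ (d - 1))⁻¹ *
            (((1 + |lam * t - lam * ‖x‖|) ^ (N + d + 1))⁻¹ +
              ((1 + |lam * t + lam * ‖x‖|) ^ (N + d + 1))⁻¹) := by
            have := le_abs_self C₀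
            gcongr
        _ ≤ _ := by gcongr
    have h11 : (1 + ‖x‖) ^ (-((d : ℝ) + 1)) = ((1 + ‖x‖) ^ (d + 1))⁻¹ := by
      rw [Real.rpow_neg (by positivity)]
      congr 1
      have : (d : ℝ) + 1 = ((d + 1 : ℕ) : ℝ) := by push_cast; ring
      rw [this, Real.rpow_natCast]
    rw [h11]
    have h12 : ((lam * (1 + ‖x‖) / 4) ^ (N + d + 1))⁻¹ =
        4 ^ (N + d + 1) * ((lam ^ (N + d + 1))⁻¹ * ((1 + ‖x‖) ^ (N + d + 1))⁻¹) := by
      rw [div_pow, mul_pow, inv_div, div_eq_mul_inv, mul_inv]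
    have h13 : lam ^ d * (lam ^ (N + d + 1))⁻¹ ≤ (lam ^ N)⁻¹ := by
      rw [show N + d + 1 = d + (N + 1) by ring, pow_add, mul_inv, ← mul_assoc,
        mul_inv_cancel₀ (by positivity), one_mul]
      exact inv_anti₀ (by positivity) (pow_le_pow_right₀ hl (by omega))
    have h14 : ((1 + ‖x‖) ^ (N + d + 1))⁻¹ ≤ ((1 + ‖x‖) ^ (d + 1))⁻¹ :=
      inv_anti₀ (by positivity) (pow_le_pow_right₀ (by linarith) (by omega))
    calc lam ^ d * ‖osc d (fun q : ℝ × EE d => fg d q.1) (lam * t) (lam * ‖x‖)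
          (-(‖x‖⁻¹ • x))‖ ≤ lam ^ d * (|C₀| * B * 1 *
            (((lam * (1 + ‖x‖) / 4) ^ (N + d + 1))⁻¹ +
              ((lam * (1 + ‖x‖) / 4) ^ (N + d + 1))⁻¹)) :=
          mul_le_mul_of_nonneg_left h8 (by positivity)
      _ = K * (lam ^ d * (lam ^ (N + d + 1))⁻¹) * ((1 + ‖x‖) ^ (N + d + 1))⁻¹ := by
          rw [h12, hKdef]
          ring
      _ ≤ K * (lam ^ N)⁻¹ * ((1 + ‖x‖) ^ (d + 1))⁻¹ := by gcongr
  have hfin : ∫⁻ x : EE d, ENNReal.ofReal ((1 + ‖x‖) ^ (-((d : ℝ) + 1))) < ⊤ := by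
    refine finite_integral_one_add_norm ?_
    rw [finrank_euclideanSpace_fin]
    linarith
  refine ⟨K.toNNReal * (∫⁻ x : EE d, ENNReal.ofReal ((1 + ‖x‖) ^ (-((d : ℝ) + 1)))).toNNReal,
    fun lam t hl ht => ?_⟩
  have hl0 : 0 < lam := by linarith
  have hms : MeasurableSet {x : EE d | 4 ≤ ‖x‖} := measurableSet_le measurable_const
    measurable_norm
  calc ∫⁻ x in {x : EE d | 4 ≤ ‖x‖}, ‖MK (mT lam t) x‖ₑ ≤
        ∫⁻ x in {x : EE d | 4 ≤ ‖x‖}, ENNReal.ofReal (K * (lam ^ N)⁻¹) *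
          ENNReal.ofReal ((1 + ‖x‖) ^ (-((d : ℝ) + 1))) := by
        refine setLIntegral_mono' hms fun x hx => ?_
        rw [← ENNReal.ofReal_mul (by positivity), ← ofReal_norm]
        exact ENNReal.ofReal_le_ofReal (key lam t hl ht x hx)
    _ ≤ ∫⁻ x : EE d, ENNReal.ofReal (K * (lam ^ N)⁻¹) *
          ENNReal.ofReal ((1 + ‖x‖) ^ (-((d : ℝ) + 1))) := setLIntegral_le_lintegral _ _
    _ = ENNReal.ofReal (K * (lam ^ N)⁻¹) *
          ∫⁻ x : EE d, ENNReal.ofReal ((1 + ‖x‖) ^ (-((d : ℝ) + 1))) :=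
        lintegral_const_mul' _ _ ENNReal.ofReal_ne_top
    _ = _ := by
        rw [ENNReal.ofReal_mul hK0]
        push_cast
        rw [ENNReal.coe_toNNReal hfin.ne]
        rw [show ((K.toNNReal : ℝ≥0) : ℝ≥0∞) = ENNReal.ofReal K from rfl]
        ring

end Pool.Agent.H17.BR
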